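import Pool.Agent.Helper58.R3.Stmts

/-!
The case of a bad index.
-/

set_option autoImplicit false
open Classical

namespace Pool.Agent.Helper58.R3

open Pool.Agent.Helper28.RS (TF amal Bet)
open Pool.Agent.Helper77.SND (Copy C3)

theorem ng_mem_nb {m : ℕ} (H : SimpleGraph (Fin m)) (F : Finset (Fin m)) (x : Fin m) :
    x ∈ nb H F ↔ x ∉ F ∧ ∃ y ∈ F, H.Adj y x := by
  unfold nb
  rw [Finset.mem_filter]
  exact ⟨fun h => h.2, fun h => ⟨Finset.mem_univ _, h⟩⟩

theorem ng_split {m : ℕ} (S : Finset (Fin m)) (h : S.card = 3) (v x : Fin m) (hv : v ∈ S)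
    (hx : x ∈ S) (hne : x ≠ v) :
    ∃ y, y ≠ v ∧ y ≠ x ∧ y ∈ S ∧ ∀ z ∈ S, z = v ∨ z = x ∨ z = y := by
  have h1 : ((S.erase v).erase x).card = 1 := by
    rw [Finset.card_erase_of_mem (Finset.mem_erase.2 ⟨hne, hx⟩), Finset.card_erase_of_mem hv, h]
  obtain ⟨y, hy⟩ := Finset.card_eq_one.1 h1
  have hy1 : y ∈ (S.erase v).erase x := by rw [hy]; exact Finset.mem_singleton_self y
  rw [Finset.mem_erase, Finset.mem_erase] at hy1
  refine ⟨y, hy1.2.1, hy1.1, hy1.2.2, fun z hz => ?_⟩
  by_cases h2 : z = v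
  · exact Or.inl h2
  by_cases h3 : z = x
  · exact Or.inr (Or.inl h3)
  right; right
  have h4 : z ∈ (S.erase v).erase x :=
    Finset.mem_erase.2 ⟨h3, Finset.mem_erase.2 ⟨h2, hz⟩⟩
  rw [hy] at h4
  exact Finset.mem_singleton.1 h4

section basic

variable {m : ℕ} {H : SimpleGraph (Fin m)} {v0 : Fin m} {A : Type} {X : Finset (Fin m)}
  {L D : A → Finset (Fin m)} {Φ : A → Fin m → Fin m} {i : Fin 3 → A} {a : Fin 3 → Fin m}

theorem ng_XD (c : Cfg2 H v0 X L D Φ i a) {l : A} {x y : Fin m} (hx : x ∈ L l) (hy : y ∈ X)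
    (h : H.Adj x y) : y ∈ D l := by
  rcases c.c.nbL l x hx y h with h1 | h1
  · exact absurd hy (c.c.LX l y h1)
  · exact h1

theorem ng_LL (c : Cfg2 H v0 X L D Φ i a) {l l' : A} {x y : Fin m} (hx : x ∈ L l)
    (hy : y ∈ L l') (h : H.Adj x y) : l = l' := by
  rcases c.c.nbL l x hx y h with h1 | h1
  · exact c.c.LL l l' y h1 hy
  · exact absurd (c.c.DX l y h1) (c.c.LX l' y hy)

theorem ng_ainj (c : Cfg2 H v0 X L D Φ i a) {s t : Fin 3} (h : a s = a t) : s = t := by
  have h1 := c.aL s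
  rw [h] at h1
  exact c.ii (c.c.LL _ _ _ h1 (c.aL t))

theorem ng_aX (c : Cfg2 H v0 X L D Φ i a) (s : Fin 3) : a s ∉ X := c.c.LX _ _ (c.aL s)

theorem ng_D3 (c : Cfg2 H v0 X L D Φ i a) (s : Fin 3) : (D (i s)).card = 3 :=
  c.D3 _ ⟨a s, c.aL s⟩

theorem ng_Dne (c : Cfg2 H v0 X L D Φ i a) {s t : Fin 3} (h : D (i s) = D (i t)) : s = t :=
  c.ii (c.c.dst _ _ (ng_D3 c s) h)

theorem ng_three {s t r : Fin 3} (h1 : s ≠ t) (h2 : r ≠ s) (h3 : r ≠ t) (j : Fin 3) :
    j = s ∨ j = t ∨ j = r := by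
  have e1 := j.isLt
  have e2 := s.isLt
  have e3 := t.isLt
  have e4 := r.isLt
  simp only [Fin.ext_iff, ne_eq] at *
  omega

/-- the vertex over a boundary element of the part over `r` -/
theorem ng_five (c : Cfg2 H v0 X L D Φ i a) (s t r : Fin 3) (hst : s ≠ t) (hrs : r ≠ s)
    (hrt : r ≠ t) (K : Finset (Fin m)) (Θ : Fin m → Fin m) (hP : Pc H v0 K Θ)
    (vk1 : ∀ l, (∀ j, l ≠ i j) → ∀ x ∈ K, Θ x ∉ L l)
    (vk2 : ∀ j, ∃ x ∈ nb H K, Θ x = a j)
    (hkc : KC H v0 L D i a (K.filter (fun x => Θ x ∈ L (i r))) r Θ) (e : Fin m)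
    (he : e ∈ D (i r)) (hev : e ≠ v0) :
    ∃ (g : Fin m) (j : Fin 3), (j = s ∨ j = t) ∧ H.Adj e (Θ g) ∧ Θ g ∈ L (i j) ∧
      (g ∈ K ∨ Θ g = a j) := by
  set V : Finset (Fin m) := K.filter (fun x => Θ x ∈ L (i r)) with hV
  have hVK : V ⊆ K := Finset.filter_subset _ _
  have hX : ∀ z ∈ D (i r), z ∈ X := c.c.DX (i r)
  -- boundary of V lies in K or nb K
  have hnb : ∀ z, z ∈ nb H V → z ∈ K ∪ nb H K := by
    intro z hz
    obtain ⟨_, y, hy, hyz⟩ := (ng_mem_nb H V z).1 hz
    by_cases h : z ∈ K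
    · exact Finset.mem_union_left _ h
    · exact Finset.mem_union_right _ ((ng_mem_nb H K z).2 ⟨h, y, hVK hy, hyz⟩)
  have haj : ∀ z ∈ nb H K, ∃ j, Θ z = a j := fun z hz => (c.Nv _).1 (hP.D z hz)
  -- the image of the boundary
  have himg : (nb H V).image Θ ⊆ insert (a r) ((D (i r)).erase v0) := by
    intro z hz
    obtain ⟨x, hx, rfl⟩ := Finset.mem_image.1 hz
    rcases hkc.ND x hx with h | h
    · rw [h]; exact Finset.mem_insert_self _ _
    · exact Finset.mem_insert_of_mem (Finset.mem_erase.2 ⟨h.2, h.1⟩)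
  have hcard1 : ((nb H V).image Θ).card = 3 := by
    rw [Finset.card_image_of_injOn, hkc.c3]
    intro x hx y hy hxy
    exact hkc.emb.inj x (Finset.mem_union_right _ hx) y (Finset.mem_union_right _ hy) hxy
  have hcard2 : (insert (a r) ((D (i r)).erase v0)).card ≤ 3 := by
    refine (Finset.card_insert_le _ _).trans ?_
    rw [Finset.card_erase_of_mem (c.vD r), ng_D3 c r]
  have heq : (nb H V).image Θ = insert (a r) ((D (i r)).erase v0) :=
    Finset.eq_of_subset_of_card_le himg (by rw [hcard1]; exact hcard2)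
  have hpre : ∀ z, z = a r ∨ (z ∈ D (i r) ∧ z ≠ v0) → ∃ k ∈ nb H V, Θ k = z := by
    intro z hz
    have : z ∈ (nb H V).image Θ := by
      rw [heq]
      rcases hz with h | h
      · rw [h]; exact Finset.mem_insert_self _ _
      · exact Finset.mem_insert_of_mem (Finset.mem_erase.2 ⟨h.2, h.1⟩)
    exact Finset.mem_image.1 this
  obtain ⟨k, hk, hke⟩ := hpre e (Or.inr ⟨he, hev⟩)
  obtain ⟨d, hd, hda⟩ := hpre (a r) (Or.inl rfl)
  have hkK : k ∈ K := by
    rcases Finset.mem_union.1 (hnb k hk) with h | h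
    · exact h
    · obtain ⟨j, hj⟩ := haj k h
      exact absurd (by rw [← hj, hke]; exact hX e he) (ng_aX c j)
  -- the other element of D
  obtain ⟨f, hfv, hfe, hfD, hD⟩ := ng_split (D (i r)) (ng_D3 c r) v0 e (c.vD r) he hev
  have hnbV : ∀ z ∈ nb H V, z ≠ k → z = d ∨ Θ z = f := by
    intro z hz hzk
    rcases hkc.ND z hz with h | h
    · left
      exact hkc.emb.inj z (Finset.mem_union_right _ hz) d (Finset.mem_union_right _ hd)
        (by rw [h, hda])
    · right
      rcases hD _ h.1 with h1 | h1 | h1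
      · exact absurd h1 h.2
      · exfalso
        apply hzk
        exact hkc.emb.inj z (Finset.mem_union_right _ hz) k (Finset.mem_union_right _ hk)
          (by rw [h1, hke])
      · exact h1
  obtain ⟨k', hk', hkf⟩ := hpre f (Or.inr ⟨hfD, hfv⟩)
  have hnbV' : ∀ z ∈ nb H V, z ≠ k → z = d ∨ z = k' := by
    intro z hz hzk
    rcases hnbV z hz hzk with h | h
    · exact Or.inl h
    · right
      exact hkc.emb.inj z (Finset.mem_union_right _ hz) k' (Finset.mem_union_right _ hk')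
        (by rw [h, hkf])
  -- the further neighbour
  have hg : ∃ g, H.Adj k g ∧ g ∉ V ∧ g ≠ d ∧ g ≠ k' := by
    by_contra hcon
    push Not at hcon
    have hsub : nb H (insert k V) ⊆ {d, k'} := by
      intro z hz
      obtain ⟨hz1, y, hy, hyz⟩ := (ng_mem_nb H _ z).1 hz
      rw [Finset.mem_insert, not_or] at hz1
      rw [Finset.mem_insert, Finset.mem_singleton]
      rcases Finset.mem_insert.1 hy with h | h
      · rw [h] at hyz
        by_cases h1 : z = d
        · exact Or.inl h1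
        · exact Or.inr (hcon z hyz hz1.2 h1)
      · exact hnbV' z ((ng_mem_nb H V z).2 ⟨hz1.2, y, h, hyz⟩) hz1.1
    have hc2 : (nb H (insert k V)).card ≤ 2 :=
      (Finset.card_le_card hsub).trans Finset.card_le_two
    obtain ⟨ds, hds, hdsa⟩ := vk2 s
    have hdsK : ds ∉ K := ((ng_mem_nb H K ds).1 hds).1
    rcases c.c.k3 (insert k V) ⟨k, Finset.mem_insert_self _ _⟩ hc2 ds with h | h
    · rcases Finset.mem_insert.1 h with h1 | h1
      · exact hdsK (h1 ▸ hkK)
      · exact hdsK (hVK h1)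
    · have h1 := hsub h
      rw [Finset.mem_insert, Finset.mem_singleton] at h1
      rcases h1 with h1 | h1
      · rw [h1, hda] at hdsa
        exact hrs (ng_ainj c hdsa)
      · rw [h1, hkf] at hdsa
        exact ng_aX c s (hdsa ▸ hX f hfD)
  obtain ⟨g, hkg, hgV, hgd, hgk'⟩ := hg
  have hgKK : g ∈ K ∪ nb H K := by
    by_cases h : g ∈ K
    · exact Finset.mem_union_left _ h
    · exact Finset.mem_union_right _ ((ng_mem_nb H K g).2 ⟨h, k, hkK, hkg⟩)
  have hadj : H.Adj e (Θ g) := by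
    rw [← hke]
    exact hP.emb.hom k (Finset.mem_union_left _ hkK) g hgKK hkg
  have hgX : Θ g ∉ X := fun h => c.c.ind e (hX e he) _ h hadj
  by_cases hgK : g ∈ K
  · obtain ⟨l, hl⟩ := (c.c.cov (Θ g)).resolve_left hgX
    by_cases h : ∀ j, l ≠ i j
    · exact absurd hl (vk1 l h g hgK)
    · push Not at h
      obtain ⟨j, hj⟩ := h
      rw [hj] at hl
      refine ⟨g, j, ?_, hadj, hl, Or.inl hgK⟩
      rcases ng_three hst hrs hrt j with h1 | h1 | h1
      · exact Or.inl h1
      · exact Or.inr h1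
      · exfalso
        apply hgV
        rw [h1] at hl
        exact Finset.mem_filter.2 ⟨hgK, hl⟩
  · have hgn : g ∈ nb H K := (Finset.mem_union.1 hgKK).resolve_left hgK
    obtain ⟨j, hj⟩ := haj g hgn
    refine ⟨g, j, ?_, hadj, by rw [hj]; exact c.aL j, Or.inr hj⟩
    rcases ng_three hst hrs hrt j with h1 | h1 | h1
    · exact Or.inl h1
    · exact Or.inr h1
    · exfalso
      apply hgd
      exact hP.emb.inj g hgKK d (hnb d hd) (by rw [hj, h1, hda])

end basic

theorem st_NG (h1 : ST_VK) (h2 : ST_KK) (h3 : ST_CN) : ST_NG := by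
  intro m H v0 A X L D Φ i a c n hn s t r x hst hrs hrt hxX hxv hsx htx hr
  -- the images of `a s` and `a t`
  have hcn : ∀ j, (j = s ∨ j = t) → ∃ p q : Fin 3, (p = s ∨ p = t) ∧ (q = s ∨ q = t) ∧ p ≠ q ∧
      Φ (i j) v0 = a p ∧ Φ (i j) x = a q ∧ x ∈ D (i j) ∧ Φ (i j) (a j) ∈ X ∧
      Φ (i j) (a j) ≠ v0 ∧ Φ (i j) (a j) ∈ D (i s) ∧ Φ (i j) (a j) ∈ D (i t) := by
    intro j hj
    have hjx : H.Adj (a j) x := by
      rcases hj with h | h
      · rw [h]; exact hsx
      · rw [h]; exact htx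
    obtain ⟨e1, e2, e3, p, q, hpq, e4, e5, e6, e7, e8, e9⟩ :=
      h3 m H v0 A X L D Φ i a c j x hxX hxv hjx
    have hpr : p ≠ r := by
      intro h
      rw [h] at e6
      exact hr _ e1 e2 e6.symm
    have hqr : q ≠ r := by
      intro h
      rw [h] at e7
      exact hr _ e1 e2 e7.symm
    have hp : p = s ∨ p = t := by
      rcases ng_three hst hrs hrt p with h | h | h
      · exact Or.inl h
      · exact Or.inr h
      · exact absurd h hpr
    have hq : q = s ∨ q = t := by
      rcases ng_three hst hrs hrt q with h | h | h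
      · exact Or.inl h
      · exact Or.inr h
      · exact absurd h hqr
    refine ⟨p, q, hp, hq, hpq, e4, e5, e3, e1, e2, ?_, ?_⟩
    · rcases hp with h | h
      · rw [h] at e8; exact e8
      · rcases hq with h' | h'
        · rw [h'] at e9; exact e9
        · exact absurd (h.trans h'.symm) hpq
    · rcases hp with h | h
      · rcases hq with h' | h'
        · exact absurd (h.trans h'.symm) hpq
        · rw [h'] at e9; exact e9
      · rw [h] at e8; exact e8
  obtain ⟨ps, qs, hps, hqs, hpqs, cs1, cs2, cs3, cs4, cs5, cs6, cs7⟩ := hcn s (Or.inl rfl)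
  obtain ⟨pt, qt, hpt, hqt, hpqt, ct1, ct2, ct3, ct4, ct5, ct6, ct7⟩ := hcn t (Or.inr rfl)
  obtain ⟨y, hyv, hyx, hyD, hDs⟩ := ng_split (D (i s)) (ng_D3 c s) v0 x (c.vD s) cs3 hxv
  obtain ⟨p, hpv, hpx, hpD, hDt⟩ := ng_split (D (i t)) (ng_D3 c t) v0 x (c.vD t) ct3 hxv
  have hyX : y ∈ X := c.c.DX _ _ hyD
  have hyt : y ∉ D (i t) := by
    intro h
    apply hst
    apply ng_Dne c
    apply Finset.eq_of_subset_of_card_le
    · intro z hz
      rcases hDs z hz with h' | h' | h'
      · rw [h']; exact c.vD t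
      · rw [h']; exact ct3
      · rw [h']; exact h
    · rw [ng_D3 c s, ng_D3 c t]
  have hboth : ∀ z, z ∈ D (i s) → z ∈ D (i t) → z ≠ v0 → z = x := by
    intro z hzs hzt hzv
    rcases hDs z hzs with h | h | h
    · exact absurd h hzv
    · exact h
    · rw [h] at hzt
      exact absurd hzt hyt
  have hws : ∀ j, (j = s ∨ j = t) → Φ (i j) (a j) = x := by
    intro j hj
    obtain ⟨_, _, _, _, _, _, _, _, _, e1, e2, e3⟩ := hcn j hj
    exact hboth _ e2 e3 e1
  -- (3)
  have hsy : ¬ H.Adj (a s) y := by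
    intro h
    have e1 : H.Adj (Φ (i s) (a s)) (Φ (i s) y) :=
      c.c.hom (i s) (a s) (Finset.mem_union_left _ (c.aL s)) y (Finset.mem_union_right _ hyD) h
    rw [hws s (Or.inl rfl)] at e1
    obtain ⟨j, hj⟩ := (c.Nv _).1 (c.c.ΦD (i s) y hyD)
    have hjp : j ≠ ps := by
      intro h'
      apply hyv
      exact c.c.inj (i s) y (Finset.mem_union_right _ hyD) v0
        (Finset.mem_union_right _ (c.vD s)) (by rw [hj, h', cs1])
    have hjq : j ≠ qs := by
      intro h'
      apply hyx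
      exact c.c.inj (i s) y (Finset.mem_union_right _ hyD) x
        (Finset.mem_union_right _ cs3) (by rw [hj, h', cs2])
    have hjr : j = r := by
      rcases ng_three hst hrs hrt j with h' | h' | h'
      · exfalso
        rcases hps with e | e
        · exact hjp (h'.trans e.symm)
        · rcases hqs with e' | e'
          · exact hjq (h'.trans e'.symm)
          · exact hpqs (e.trans e'.symm)
      · exfalso
        rcases hps with e | e
        · rcases hqs with e' | e'
          · exact hpqs (e.trans e'.symm)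
          · exact hjq (h'.trans e'.symm)
        · exact hjp (h'.trans e.symm)
      · exact h'
    rw [hj, hjr] at e1
    exact hr x hxX hxv e1.symm
  -- the piece
  intro K Θ hP
  by_contra hK
  have hK1 : K.card ≤ n + 1 := not_lt.1 hK
  obtain ⟨vk1, vk2, vk3⟩ := h1 m H v0 A X L D Φ i a c n hn K Θ hP hK1
  -- (4)
  have hVr : (K.filter (fun x => Θ x ∈ L (i r))).Nonempty := by
    obtain ⟨e, he, hea⟩ := vk2 r
    obtain ⟨_, q, hq, hqe⟩ := (ng_mem_nb H K e).1 he
    have e1 := hP.emb.hom q (Finset.mem_union_left _ hq) e (Finset.mem_union_right _ he) hqe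
    rw [hea] at e1
    have e2 : Θ q ∉ X := fun h => hr _ h (hP.nv q hq) e1.symm
    obtain ⟨l, hl⟩ := (c.c.cov (Θ q)).resolve_left e2
    have e3 := ng_LL c hl (c.aL r) e1
    rw [e3] at hl
    exact ⟨q, Finset.mem_filter.2 ⟨hq, hl⟩⟩
  obtain ⟨kcr, _⟩ := vk3 r hVr
  have h5 := ng_five c s t r hst hrs hrt K Θ hP vk1 vk2 kcr
  -- elements of D (i r)
  have h5' : ∀ e ∈ D (i r), e ≠ v0 → e = x ∨ e = y ∨ e = p := by
    intro e he hev
    obtain ⟨g, j, hj, hadj, hgL, _⟩ := h5 e he hev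
    have e1 : e ∈ D (i j) := ng_XD c hgL (c.c.DX _ _ he) hadj.symm
    rcases hj with h | h
    · rw [h] at e1
      rcases hDs e e1 with h' | h' | h'
      · exact absurd h' hev
      · exact Or.inl h'
      · exact Or.inr (Or.inl h')
    · rw [h] at e1
      rcases hDt e e1 with h' | h' | h'
      · exact absurd h' hev
      · exact Or.inl h'
      · exact Or.inr (Or.inr h')
  have hxr : x ∉ D (i r) := by
    intro hx
    obtain ⟨e, hev, hex, heD, hDr⟩ := ng_split (D (i r)) (ng_D3 c r) v0 x (c.vD r) hx hxv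
    rcases h5' e heD hev with h | h | h
    · exact hex h
    · apply hrs
      apply ng_Dne c
      apply Finset.eq_of_subset_of_card_le
      · intro z hz
        rcases hDr z hz with h' | h' | h'
        · rw [h']; exact c.vD s
        · rw [h']; exact cs3
        · rw [h', h]; exact hyD
      · rw [ng_D3 c s, ng_D3 c r]
    · apply hrt
      apply ng_Dne c
      apply Finset.eq_of_subset_of_card_le
      · intro z hz
        rcases hDr z hz with h' | h' | h'
        · rw [h']; exact c.vD t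
        · rw [h']; exact ct3
        · rw [h', h]; exact hpD
      · rw [ng_D3 c t, ng_D3 c r]
  have hyr : y ∈ D (i r) := by
    by_contra hy
    have hsub : D (i r) ⊆ {v0, p} := by
      intro z hz
      rw [Finset.mem_insert, Finset.mem_singleton]
      by_cases hzv : z = v0
      · exact Or.inl hzv
      · rcases h5' z hz hzv with h | h | h
        · exact absurd (h ▸ hz) hxr
        · exact absurd (h ▸ hz) hy
        · exact Or.inr h
    have e1 := (Finset.card_le_card hsub).trans Finset.card_le_two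
    rw [ng_D3 c r] at e1
    omega
  -- (6)
  have h6 : ∀ N : ℕ, ∀ (K' : Finset (Fin m)) (j : Fin 3) (Θ' : Fin m → Fin m), K'.card = N →
      N ≤ n + 1 → (j = s ∨ j = t) → ¬ KC H v0 L D i a K' j Θ' := by
    intro N
    induction N using Nat.strong_induction_on with
    | _ N ih =>
      intro K' j Θ' hN hNn hj hkc
      obtain ⟨s', _, hs', _, _, e1, _, _, e2, _⟩ := hcn j hj
      obtain ⟨kk1, ⟨e, he, hee⟩, kk3, kk4⟩ :=
        h2 m H v0 A X L D Φ i a c n hn K' j s' Θ' hkc (by omega) e1 e2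
      obtain ⟨_, q, hq, hqe⟩ := (ng_mem_nb H K' e).1 he
      have e3 := kk3 q (Finset.mem_union_left _ hq) e (Finset.mem_union_right _ he) hqe
      rw [hee, hws j hj] at e3
      have e4 : Φ (i j) (Θ' q) ∉ X := fun h => c.c.ind _ h x hxX e3
      obtain ⟨l, hl⟩ := (c.c.cov _).resolve_left e4
      by_cases h : ∀ t', t' ≠ s' → l ≠ i t'
      · exact kk1 l h q hq hl
      · push Not at h
        obtain ⟨t', ht', hlt⟩ := h
        rw [hlt] at hl
        rcases ng_three hst hrs hrt t' with h' | h' | h'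
        · obtain ⟨e5, e6⟩ := kk4 t' ht' ⟨q, Finset.mem_filter.2 ⟨hq, hl⟩⟩
          exact ih _ (by omega) _ t' _ rfl (by omega) (Or.inl h') e5
        · obtain ⟨e5, e6⟩ := kk4 t' ht' ⟨q, Finset.mem_filter.2 ⟨hq, hl⟩⟩
          exact ih _ (by omega) _ t' _ rfl (by omega) (Or.inr h') e5
        · rw [h'] at hl
          exact hxr (ng_XD c hl hxX e3)
  -- (7)
  have h7 : ∀ j, (j = s ∨ j = t) → ∀ g ∈ K, Θ g ∉ L (i j) := by
    intro j hj g hg hgL
    obtain ⟨e1, e2⟩ := vk3 j ⟨g, Finset.mem_filter.2 ⟨hg, hgL⟩⟩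
    exact h6 _ _ j Θ rfl (by omega) hj e1
  -- (8)
  obtain ⟨g, j, hj, hadj, hgL, hg⟩ := h5 y hyr hyv
  rcases hg with hg | hg
  · exact h7 j hj g hg hgL
  · rw [hg] at hadj
    rcases hj with h | h
    · rw [h] at hadj
      exact hsy hadj.symm
    · rw [h] at hadj
      exact hyt (ng_XD c (c.aL t) hyX hadj.symm)

end Pool.Agent.Helper58.R3
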